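import Mathlib

/-!
# Triangle-area domination implies convex-hull-area domination

Let `x 1, …, x n` and `y 1, …, y n` be points of the Euclidean plane such that every triangle
`x i, x j, x k` has area at least that of `y i, y j, y k`.  Then the convex hull of the `x i` has
area at least that of the convex hull of the `y i`.  (The condition that distances do not increase
is not needed.)

Proof idea (strong induction on the index set `s`; we may assume every `y a` is extreme).
* Subadditivity (`subadd`): if `y i`, `y j` have parallel supporting lines and `s` is covered by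
  `t, t'` both containing `i, j`, then `A(y, s) ≤ A(y, t) + A(y, t')`.
* If for such a pair the line `x i, x j` has points of `x` on both sides, split along it and use
  the induction hypothesis.
* Otherwise, for every edge `(a, b)` of the hull of `y` with farthest vertex `p`, both `(p, a)` and
  `(p, b)` support the hull of `x`.  Then `(a, b) ↦ p` is injective, hence bijective, `x` is in
  convex position, and for the `p` for which `A(y, s \ p)` is largest the chord `x a, x b` cuts off
  exactly `x p`; so `A(y, s) ≤ A(y, s \ a) + A(y, abp) ≤ A(y, s \ p) + A(y, abp)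
  ≤ A(x, s \ p) + A(x, abp) ≤ A(x, s)`.
-/

open MeasureTheory Set Pointwise

namespace Pool.Agent.Results.MP_9d21cc_co.TriangleDomination

/-- Twice the signed area of the triangle `p q r`. -/
def o (p q r : ℝ × ℝ) : ℝ := (q.1 - p.1) * (r.2 - p.2) - (q.2 - p.2) * (r.1 - p.1)

/-- The linear map with matrix `a b; c d`. -/
noncomputable def lin (a b c d : ℝ) : (ℝ × ℝ) →ₗ[ℝ] (ℝ × ℝ) :=
  Matrix.toLin (Module.Basis.finTwoProd ℝ) (Module.Basis.finTwoProd ℝ) !![a, b; c, d]

theorem lin_apply (a b c d : ℝ) (z : ℝ × ℝ) :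
    lin a b c d z = (a * z.1 + b * z.2, c * z.1 + d * z.2) :=
  Matrix.toLin_finTwoProd_apply a b c d z

theorem vol_lin (a b c d : ℝ) (s : Set (ℝ × ℝ)) :
    volume (lin a b c d '' s) = ENNReal.ofReal |a * d - b * c| * volume s := by
  rw [Measure.addHaar_image_linearMap]
  congr 3
  rw [lin, LinearMap.det_toLin, Matrix.det_fin_two_of]

/-- The standard triangle. -/
def tri0 : Set (ℝ × ℝ) := convexHull ℝ {((0 : ℝ), (0 : ℝ)), (1, 0), (0, 1)}

theorem vol_tri (p q r : ℝ × ℝ) :
    volume (convexHull ℝ {p, q, r}) = ENNReal.ofReal |o p q r| * volume tri0 := by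
  have key : convexHull ℝ {p, q, r} = p +ᵥ
      (lin (q.1 - p.1) (r.1 - p.1) (q.2 - p.2) (r.2 - p.2) '' tri0) := by
    rw [tri0, LinearMap.image_convexHull, ← convexHull_vadd]
    congr 1
    rw [Set.image_insert_eq, Set.image_insert_eq, Set.image_singleton,
      Set.vadd_set_insert, Set.vadd_set_insert, Set.vadd_set_singleton]
    simp only [lin_apply, vadd_eq_add]
    have e0 : p + ((q.1 - p.1) * 0 + (r.1 - p.1) * 0, (q.2 - p.2) * 0 + (r.2 - p.2) * 0) = p := by
      ext <;> simp
    have e1 : p + ((q.1 - p.1) * 1 + (r.1 - p.1) * 0, (q.2 - p.2) * 1 + (r.2 - p.2) * 0) = q := by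
      ext <;> simp
    have e2 : p + ((q.1 - p.1) * 0 + (r.1 - p.1) * 1, (q.2 - p.2) * 0 + (r.2 - p.2) * 1) = r := by
      ext <;> simp
    rw [e0, e1, e2]
  rw [key, measure_vadd, vol_lin]
  congr 3
  simp only [o]; ring

theorem tri0_pos : 0 < volume tri0 := by
  have hC : Convex ℝ tri0 := convex_convexHull ℝ _
  have h0 : ((0 : ℝ), (0 : ℝ)) ∈ tri0 := subset_convexHull ℝ _ (by simp)
  have h1 : ((1 : ℝ), (0 : ℝ)) ∈ tri0 := subset_convexHull ℝ _ (by simp)
  have h2 : ((0 : ℝ), (1 : ℝ)) ∈ tri0 := subset_convexHull ℝ _ (by simp)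
  have hsub : Icc (0 : ℝ) (1 / 2) ×ˢ Icc (0 : ℝ) (1 / 2) ⊆ tri0 := by
    rintro ⟨a, b⟩ ⟨⟨ha, ha'⟩, hb, hb'⟩
    simp only at ha ha' hb hb'
    have g1 := hC h1 h0 (a := 2 * a) (b := 1 - 2 * a) (by linarith) (by linarith) (by ring)
    have g2 := hC h2 h0 (a := 2 * b) (b := 1 - 2 * b) (by linarith) (by linarith) (by ring)
    have g3 := hC g1 g2 (a := 1 / 2) (b := 1 / 2) (by norm_num) (by norm_num) (by norm_num)
    convert g3 using 1
    ext <;> simp
  refine lt_of_lt_of_le ?_ (measure_mono hsub)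
  rw [Measure.volume_eq_prod, Measure.prod_prod, Real.volume_Icc]
  norm_num

theorem tri0_lt_top : volume tri0 < ⊤ := by
  have : IsCompact tri0 := Set.Finite.isCompact_convexHull (𝕜 := ℝ) (Set.toFinite _)
  exact this.measure_lt_top

/-- Fibrewise subadditivity. -/
theorem subadd0 {K K' : Set (ℝ × ℝ)} (hK : IsCompact K) (hK' : IsCompact K')
    (cK : Convex ℝ K) (cK' : Convex ℝ K') {s0 s1 c : ℝ} (hs : s0 < s1)
    (P0 : (s0, c) ∈ K) (P1 : (s1, c) ∈ K) (P0' : (s0, c) ∈ K') (P1' : (s1, c) ∈ K')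
    (hb : ∀ z ∈ K, s0 ≤ z.1 ∧ z.1 ≤ s1) (hb' : ∀ z ∈ K', s0 ≤ z.1 ∧ z.1 ≤ s1) :
    volume (convexHull ℝ (K ∪ K')) ≤ volume K + volume K' := by
  let W : Set (ℝ × ℝ) := {z | ∃ h h', (z.1, h) ∈ K ∧ (z.1, h') ∈ K' ∧ z.2 = h + h' - c}
  have base : ∀ {M : Set (ℝ × ℝ)}, Convex ℝ M → (s0, c) ∈ M → (s1, c) ∈ M → ∀ s, s0 ≤ s → s ≤ s1 →
      (s, c) ∈ M := by
    intro M cM h0 h1 s hs0 hs1
    have hpos : 0 < s1 - s0 := sub_pos.2 hs
    have := cM h0 h1 (a := (s1 - s) / (s1 - s0)) (b := (s - s0) / (s1 - s0))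
      (div_nonneg (by linarith) hpos.le) (div_nonneg (by linarith) hpos.le)
      (by field_simp; ring)
    convert this using 1
    ext
    · simp; field_simp; ring
    · simp; field_simp; ring
  have hW : Convex ℝ W := by
    rintro z ⟨h1, h1', a1, a2, a3⟩ w ⟨h2, h2', b1, b2, b3⟩ u v hu hv huv
    refine ⟨u * h1 + v * h2, u * h1' + v * h2', ?_, ?_, ?_⟩
    · exact cK a1 b1 hu hv huv
    · exact cK' a2 b2 hu hv huv
    · show u * z.2 + v * w.2 = _
      rw [a3, b3]
      have : c = u * c + v * c := by rw [← add_mul, huv, one_mul]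
      linarith
  have hsub : K ∪ K' ⊆ W := by
    rintro z (hz | hz)
    · obtain ⟨e1, e2⟩ := hb z hz
      exact ⟨z.2, c, hz, base cK' P0' P1' _ e1 e2, by ring⟩
    · obtain ⟨e1, e2⟩ := hb' z hz
      exact ⟨c, z.2, base cK P0 P1 _ e1 e2, hz, by ring⟩
  have hWc : IsCompact W := by
    have h1 : IsCompact ((K ×ˢ K') ∩ {p : (ℝ × ℝ) × (ℝ × ℝ) | p.1.1 = p.2.1}) :=
      (hK.prod hK').inter_right (isClosed_eq (by fun_prop) (by fun_prop))
    have h2 : W = (fun p : (ℝ × ℝ) × (ℝ × ℝ) => (p.1.1, p.1.2 + p.2.2 - c)) ''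
        ((K ×ˢ K') ∩ {p : (ℝ × ℝ) × (ℝ × ℝ) | p.1.1 = p.2.1}) := by
      ext z
      constructor
      · rintro ⟨h, h', a1, a2, a3⟩
        exact ⟨((z.1, h), (z.1, h')), ⟨⟨a1, a2⟩, rfl⟩, Prod.ext rfl a3.symm⟩
      · rintro ⟨⟨p, q⟩, ⟨⟨h1, h2⟩, h3⟩, rfl⟩
        refine ⟨p.2, q.2, h1, ?_, rfl⟩
        have : p.1 = q.1 := h3
        show (p.1, q.2) ∈ K'
        rw [this]; exact h2
    rw [h2]
    exact h1.image (by fun_prop)
  refine (measure_mono (convexHull_min hsub hW)).trans ?_
  rw [Measure.volume_eq_prod, Measure.prod_apply hWc.measurableSet,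
    Measure.prod_apply hK.measurableSet, Measure.prod_apply hK'.measurableSet,
    ← lintegral_add_left (measurable_measure_prodMk_left hK.measurableSet)]
  refine lintegral_mono fun s => ?_
  have icc : ∀ {M : Set (ℝ × ℝ)}, IsCompact M → Convex ℝ M → (Prod.mk s ⁻¹' M).Nonempty →
      ∃ a b, a ≤ b ∧ Prod.mk s ⁻¹' M = Icc a b := by
    intro M hM cM hne
    have hc : IsCompact (Prod.mk s ⁻¹' M) := by
      have : Prod.mk s ⁻¹' M = Prod.snd '' (M ∩ {z | z.1 = s}) := by
        ext t
        constructor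
        · intro h; exact ⟨(s, t), ⟨h, rfl⟩, rfl⟩
        · rintro ⟨z, ⟨h1, h2⟩, rfl⟩
          have : z.1 = s := h2
          subst this; exact h1
      rw [this]
      exact (hM.inter_right (isClosed_eq continuous_fst continuous_const)).image continuous_snd
    have hcv : Convex ℝ (Prod.mk s ⁻¹' M) := by
      intro t ht t' ht' u v hu hv huv
      have := cM ht ht' hu hv huv
      have e : u • (s, t) + v • (s, t') = (s, u • t + v • t') := by
        ext
        · simp [← add_mul, huv]
        · simp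
      rw [e] at this
      exact this
    have hconn : IsConnected (Prod.mk s ⁻¹' M) := hcv.isConnected hne
    obtain ⟨x, hx⟩ := hne
    refine ⟨_, _, ?_, eq_Icc_of_connected_compact hconn hc⟩
    exact (csInf_le hc.bddBelow hx).trans (le_csSup hc.bddAbove hx)
  by_cases h1 : (Prod.mk s ⁻¹' K).Nonempty
  · by_cases h2 : (Prod.mk s ⁻¹' K').Nonempty
    · obtain ⟨a, b, hab, e1⟩ := icc hK cK h1
      obtain ⟨a', b', hab', e2⟩ := icc hK' cK' h2
      have h3 : Prod.mk s ⁻¹' W ⊆ Icc (a + a' - c) (b + b' - c) := by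
        rintro t ⟨h, h', a1, a2, a3⟩
        have q1 : h ∈ Icc a b := e1 ▸ a1
        have q2 : h' ∈ Icc a' b' := e2 ▸ a2
        have a3 : t = h + h' - c := a3
        rw [mem_Icc] at q1 q2 ⊢
        constructor <;> linarith [q1.1, q1.2, q2.1, q2.2]
      refine (measure_mono h3).trans ?_
      rw [e1, e2, Real.volume_Icc, Real.volume_Icc, Real.volume_Icc,
        ← ENNReal.ofReal_add (by linarith) (by linarith)]
      apply ENNReal.ofReal_le_ofReal; linarith
    · have : Prod.mk s ⁻¹' W = ∅ := by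
        rw [Set.eq_empty_iff_forall_notMem]
        rintro t ⟨h, h', a1, a2, a3⟩
        exact h2 ⟨h', a2⟩
      rw [this]; simp
  · have : Prod.mk s ⁻¹' W = ∅ := by
      rw [Set.eq_empty_iff_forall_notMem]
      rintro t ⟨h, h', a1, a2, a3⟩
      exact h1 ⟨h, a1⟩
    rw [this]; simp


variable {ι : Type*}

theorem compact_hull (y : ι → ℝ × ℝ) (s : Finset ι) :
    IsCompact (convexHull ℝ (y '' (s : Set ι))) :=
  Set.Finite.isCompact_convexHull ℝ (s.finite_toSet.image y)

/-- Subadditivity along an antipodal pair `i j` (with respect to the functional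
`α z.1 + β z.2`). -/
theorem subadd (y : ι → ℝ × ℝ) (s t t' : Finset ι) (i j : ι) (α β : ℝ)
    (hit : i ∈ t) (hjt : j ∈ t) (hit' : i ∈ t') (hjt' : j ∈ t') (ht : t ⊆ s) (ht' : t' ⊆ s)
    (hs : ∀ k ∈ s, k ∈ t ∨ k ∈ t')
    (hlt : α * (y i).1 + β * (y i).2 < α * (y j).1 + β * (y j).2)
    (hmin : ∀ k ∈ s, α * (y i).1 + β * (y i).2 ≤ α * (y k).1 + β * (y k).2)
    (hmax : ∀ k ∈ s, α * (y k).1 + β * (y k).2 ≤ α * (y j).1 + β * (y j).2) :
    volume (convexHull ℝ (y '' (s : Set ι))) ≤
      volume (convexHull ℝ (y '' (t : Set ι))) + volume (convexHull ℝ (y '' (t' : Set ι))) := by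
  set u1 := (y j).1 - (y i).1 with hu1
  set u2 := (y j).2 - (y i).2 with hu2
  let L := lin α β (-u2) u1
  have hLa : ∀ z, L z = (α * z.1 + β * z.2, -u2 * z.1 + u1 * z.2) := lin_apply _ _ _ _
  have hd : 0 < α * u1 - β * (-u2) := by
    rw [hu1, hu2]; linarith
  have hvol : ∀ S, volume (L '' S) = ENNReal.ofReal (α * u1 - β * (-u2)) * volume S := by
    intro S
    rw [show L = lin α β (-u2) u1 from rfl, vol_lin, abs_of_pos hd]
  have hconv : ∀ r : Finset ι, L '' (convexHull ℝ (y '' (r : Set ι))) =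
      convexHull ℝ ((fun k => L (y k)) '' (r : Set ι)) := by
    intro r
    rw [LinearMap.image_convexHull, Set.image_image]
  set c := -u2 * (y i).1 + u1 * (y i).2 with hc
  have hcj : -u2 * (y j).1 + u1 * (y j).2 = c := by rw [hc, hu1, hu2]; ring
  have hLi : L (y i) = (α * (y i).1 + β * (y i).2, c) := by rw [hLa]
  have hLj : L (y j) = (α * (y j).1 + β * (y j).2, c) := by rw [hLa, hcj]
  have hbd : ∀ r : Finset ι, r ⊆ s → ∀ z ∈ convexHull ℝ ((fun k => L (y k)) '' (r : Set ι)),
      α * (y i).1 + β * (y i).2 ≤ z.1 ∧ z.1 ≤ α * (y j).1 + β * (y j).2 := by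
    intro r hr z hz
    have hcv : Convex ℝ {z : ℝ × ℝ | α * (y i).1 + β * (y i).2 ≤ z.1 ∧
        z.1 ≤ α * (y j).1 + β * (y j).2} := by
      intro p hp q hq a b ha hb hab
      obtain ⟨p1, p2⟩ := hp
      obtain ⟨q1, q2⟩ := hq
      show _ ≤ a * p.1 + b * q.1 ∧ a * p.1 + b * q.1 ≤ _
      have hb' : b = 1 - a := by linarith
      subst hb'
      constructor <;> nlinarith
    refine convexHull_min ?_ hcv hz
    rintro _ ⟨k, hk, rfl⟩
    show _ ≤ (L (y k)).1 ∧ (L (y k)).1 ≤ _
    rw [hLa]
    exact ⟨hmin k (hr hk), hmax k (hr hk)⟩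
  have hmem : ∀ r : Finset ι, ∀ k ∈ r, L (y k) ∈ convexHull ℝ ((fun k => L (y k)) '' (r : Set ι)) :=
    fun r k hk => subset_convexHull ℝ _ ⟨k, hk, rfl⟩
  have hcomp : ∀ r : Finset ι, IsCompact (convexHull ℝ ((fun k => L (y k)) '' (r : Set ι))) :=
    fun r => compact_hull (fun k => L (y k)) r
  have key := subadd0 (hcomp t) (hcomp t') (convex_convexHull ℝ _) (convex_convexHull ℝ _) hlt
    (hLi ▸ hmem t i hit) (hLj ▸ hmem t j hjt) (hLi ▸ hmem t' i hit') (hLj ▸ hmem t' j hjt')
    (hbd t ht) (hbd t' ht')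
  have hsub : convexHull ℝ ((fun k => L (y k)) '' (s : Set ι)) ⊆
      convexHull ℝ (convexHull ℝ ((fun k => L (y k)) '' (t : Set ι)) ∪
        convexHull ℝ ((fun k => L (y k)) '' (t' : Set ι))) := by
    refine convexHull_mono ?_
    rintro _ ⟨k, hk, rfl⟩
    rcases hs k hk with h | h
    · exact Or.inl (hmem t k h)
    · exact Or.inr (hmem t' k h)
  have key2 := (measure_mono hsub).trans key
  rw [← hconv s, ← hconv t, ← hconv t', hvol, hvol, hvol, ← mul_add] at key2
  have hd0 : ENNReal.ofReal (α * u1 - β * (-u2)) ≠ 0 := by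
    rw [Ne, ENNReal.ofReal_eq_zero, not_le]; exact hd
  exact (ENNReal.mul_le_mul_iff_right hd0 ENNReal.ofReal_ne_top).1 key2

theorem null_line (p q : ℝ × ℝ) (hpq : p ≠ q) : volume {z | o p q z = 0} = 0 := by
  let g : (ℝ × ℝ) →ₗ[ℝ] ℝ :=
    (q.1 - p.1) • LinearMap.snd ℝ ℝ ℝ - (q.2 - p.2) • LinearMap.fst ℝ ℝ ℝ
  have hg : ∀ z, g z = (q.1 - p.1) * z.2 - (q.2 - p.2) * z.1 := by
    intro z; simp [g]
  have hset : {z | o p q z = 0} = (AffineSubspace.mk' p (LinearMap.ker g) : Set (ℝ × ℝ)) := by
    ext z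
    simp only [Set.mem_ofPred_eq, SetLike.mem_coe, AffineSubspace.mem_mk', LinearMap.mem_ker,
      vsub_eq_sub, hg, Prod.fst_sub, Prod.snd_sub, o]
  rw [hset]
  apply Measure.addHaar_affineSubspace
  intro htop
  have hdir : LinearMap.ker g = ⊤ := by
    have := congrArg AffineSubspace.direction htop
    rwa [AffineSubspace.direction_mk', AffineSubspace.direction_top] at this
  have h1 : g (1, 0) = 0 := by
    rw [← LinearMap.mem_ker, hdir]; trivial
  have h2 : g (0, 1) = 0 := by
    rw [← LinearMap.mem_ker, hdir]; trivial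
  rw [hg] at h1 h2
  apply hpq
  ext
  · simp at h2; linarith
  · simp at h1; linarith

theorem o_convex_nonneg (p q : ℝ × ℝ) : Convex ℝ {z | 0 ≤ o p q z} := by
  intro z hz w hw a b ha hb hab
  have hz : 0 ≤ o p q z := hz
  have hw : 0 ≤ o p q w := hw
  show 0 ≤ o p q (a • z + b • w)
  have : o p q (a • z + b • w) = a * o p q z + b * o p q w := by
    have hb' : b = 1 - a := by linarith
    subst hb'
    simp only [o, Prod.fst_add, Prod.snd_add, Prod.smul_fst, Prod.smul_snd, smul_eq_mul]
    ring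
  rw [this]; positivity

theorem o_convex_nonpos (p q : ℝ × ℝ) : Convex ℝ {z | o p q z ≤ 0} := by
  intro z hz w hw a b ha hb hab
  have hz : o p q z ≤ 0 := hz
  have hw : o p q w ≤ 0 := hw
  show o p q (a • z + b • w) ≤ 0
  have : o p q (a • z + b • w) = a * o p q z + b * o p q w := by
    have hb' : b = 1 - a := by linarith
    subst hb'
    simp only [o, Prod.fst_add, Prod.snd_add, Prod.smul_fst, Prod.smul_snd, smul_eq_mul]
    ring
  rw [this]
  nlinarith [mul_nonneg ha (neg_nonneg.2 hz), mul_nonneg hb (neg_nonneg.2 hw)]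

/-- Superadditivity when a line separates. -/
theorem split (x : ι → ℝ × ℝ) (s t t' : Finset ι) (p q : ℝ × ℝ) (hpq : p ≠ q)
    (ht : t ⊆ s) (ht' : t' ⊆ s) (h : ∀ k ∈ t, 0 ≤ o p q (x k)) (h' : ∀ k ∈ t', o p q (x k) ≤ 0) :
    volume (convexHull ℝ (x '' (t : Set ι))) + volume (convexHull ℝ (x '' (t' : Set ι))) ≤
      volume (convexHull ℝ (x '' (s : Set ι))) := by
  have h1 : convexHull ℝ (x '' (t : Set ι)) ⊆ {z | 0 ≤ o p q z} := by
    refine convexHull_min ?_ (o_convex_nonneg p q)
    rintro _ ⟨k, hk, rfl⟩; exact h k hk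
  have h2 : convexHull ℝ (x '' (t' : Set ι)) ⊆ {z | o p q z ≤ 0} := by
    refine convexHull_min ?_ (o_convex_nonpos p q)
    rintro _ ⟨k, hk, rfl⟩; exact h' k hk
  have hd : AEDisjoint volume (convexHull ℝ (x '' (t : Set ι)))
      (convexHull ℝ (x '' (t' : Set ι))) := by
    refine measure_mono_null ?_ (null_line p q hpq)
    rintro z ⟨a, b⟩
    exact le_antisymm (h2 b) (h1 a)
  rw [← measure_union₀ (compact_hull x t').measurableSet.nullMeasurableSet hd]
  refine measure_mono (Set.union_subset ?_ ?_)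
  · exact convexHull_mono (Set.image_mono (Finset.coe_subset.2 ht))
  · exact convexHull_mono (Set.image_mono (Finset.coe_subset.2 ht'))


theorem o_swap12 (p q r : ℝ × ℝ) : o q p r = - o p q r := by simp only [o]; ring
theorem o_swap23 (p q r : ℝ × ℝ) : o p r q = - o p q r := by simp only [o]; ring
theorem o_swap13 (p q r : ℝ × ℝ) : o r q p = - o p q r := by simp only [o]; ring
theorem o_rot (p q r : ℝ × ℝ) : o q r p = o p q r := by simp only [o]; ring
theorem o_self12 (p r : ℝ × ℝ) : o p p r = 0 := by simp only [o]; ring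
theorem o_self13 (p r : ℝ × ℝ) : o p r p = 0 := by simp only [o]; ring
theorem o_self23 (p r : ℝ × ℝ) : o r p p = 0 := by simp only [o]; ring

open Classical in
/-- All points of the family are extreme. -/
def Ext (y : ι → ℝ × ℝ) (s : Finset ι) : Prop :=
  ∀ a ∈ s, y a ∉ convexHull ℝ (y '' ((s.erase a : Finset ι) : Set ι))

open Classical in
theorem ext_comb {y : ι → ℝ × ℝ} {s : Finset ι} (hE : Ext y s) {a b c : ι} (ha : a ∈ s) (hb : b ∈ s)
    (hc : c ∈ s) (hac : a ≠ c) (hbc : b ≠ c) (t : ℝ) (h0 : 0 ≤ t) (h1 : t ≤ 1)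
    (h : y c = (1 - t) • y a + t • y b) : False := by
  apply hE c hc
  rw [h]
  apply convex_convexHull ℝ _ _ _ (by linarith) h0 (by ring)
  · exact subset_convexHull ℝ _ ⟨a, by simp [hac, ha], rfl⟩
  · exact subset_convexHull ℝ _ ⟨b, by simp [hbc, hb], rfl⟩

theorem collinear_param {p q r : ℝ × ℝ} (hpq : p ≠ q) (h : o p q r = 0) :
    ∃ t : ℝ, r = (1 - t) • p + t • q := by
  simp only [o] at h
  by_cases h1 : q.1 - p.1 = 0
  · have h2 : q.2 - p.2 ≠ 0 := by
      intro h2
      apply hpq
      ext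
      · linarith
      · linarith
    have h3 : r.1 = p.1 := by
      rw [h1] at h
      have : (q.2 - p.2) * (r.1 - p.1) = 0 := by linarith
      rcases mul_eq_zero.1 this with h' | h'
      · exact absurd h' h2
      · linarith
    refine ⟨(r.2 - p.2) / (q.2 - p.2), ?_⟩
    ext
    · simp only [Prod.fst_add, Prod.smul_fst, smul_eq_mul]
      have : q.1 = p.1 := by linarith
      rw [this, h3]; ring
    · simp only [Prod.snd_add, Prod.smul_snd, smul_eq_mul]
      field_simp
      ring
  · refine ⟨(r.1 - p.1) / (q.1 - p.1), ?_⟩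
    ext
    · simp only [Prod.fst_add, Prod.smul_fst, smul_eq_mul]
      field_simp
      ring
    · simp only [Prod.snd_add, Prod.smul_snd, smul_eq_mul]
      field_simp
      linarith

theorem genpos {y : ι → ℝ × ℝ} {s : Finset ι} (hE : Ext y s) {a b c : ι} (ha : a ∈ s) (hb : b ∈ s)
    (hc : c ∈ s) (hab : a ≠ b) (hac : a ≠ c) (hbc : b ≠ c) : o (y a) (y b) (y c) ≠ 0 := by
  intro h
  have hne : y a ≠ y b := by
    intro e
    exact ext_comb hE ha hc hb hab hbc.symm 0 le_rfl zero_le_one (by simp [e])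
  obtain ⟨t, ht⟩ := collinear_param hne h
  rcases lt_or_ge t 0 with h0 | h0
  · -- `a` is between `b` and `c`
    have hp : 0 < 1 - t := by linarith
    refine ext_comb hE hb hc ha hab.symm hac.symm (1 / (1 - t)) (by positivity)
      (by rw [div_le_one hp]; linarith) ?_
    rw [ht]
    ext
    · simp only [Prod.fst_add, Prod.smul_fst, smul_eq_mul]; field_simp; ring
    · simp only [Prod.snd_add, Prod.smul_snd, smul_eq_mul]; field_simp; ring
  · rcases le_or_gt t 1 with h1 | h1
    · exact ext_comb hE ha hb hc hac hbc t h0 h1 ht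
    · -- `b` is between `a` and `c`
      have hp : 0 < t := by linarith
      refine ext_comb hE ha hc hb hab hbc.symm (1 / t) (by positivity)
        (by rw [div_le_one hp]; linarith) ?_
      rw [ht]
      ext
      · simp only [Prod.fst_add, Prod.smul_fst, smul_eq_mul]; field_simp; ring
      · simp only [Prod.snd_add, Prod.smul_snd, smul_eq_mul]; field_simp; ring

open Classical in
theorem exists_next {y : ι → ℝ × ℝ} {s : Finset ι} (hE : Ext y s) {a : ι} (ha : a ∈ s)
    (hne : (s.erase a).Nonempty) :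
    ∃ b ∈ s, b ≠ a ∧ ∀ k ∈ s, k ≠ a → k ≠ b → 0 < o (y a) (y b) (y k) := by
  obtain ⟨f, u, hf1, hf2⟩ := geometric_hahn_banach_point_closed
    (convex_convexHull ℝ (y '' ((s.erase a : Finset ι) : Set ι)))
    (compact_hull y (s.erase a)).isClosed (hE a ha)
  have hfz : ∀ z : ℝ × ℝ, f z = f (1, 0) * z.1 + f (0, 1) * z.2 := by
    intro z
    have : z = z.1 • ((1 : ℝ), (0 : ℝ)) + z.2 • ((0 : ℝ), (1 : ℝ)) := by
      ext <;> simp
    conv_lhs => rw [this, map_add, map_smul, map_smul]
    simp only [smul_eq_mul]; ring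
  set α := f (1, 0) with hα
  set β := f (0, 1) with hβ
  let φ : ι → ℝ := fun k => α * ((y k).1 - (y a).1) + β * ((y k).2 - (y a).2)
  let ψ : ι → ℝ := fun k => -β * ((y k).1 - (y a).1) + α * ((y k).2 - (y a).2)
  have hφ : ∀ k ∈ s.erase a, 0 < φ k := by
    intro k hk
    have h1 := hf2 (y k) (subset_convexHull ℝ _ ⟨k, hk, rfl⟩)
    rw [hfz] at h1 hf1
    simp only [φ]; linarith
  obtain ⟨b, hb, hmin⟩ := Finset.exists_min_image (s.erase a) (fun k => ψ k / φ k) hne
  refine ⟨b, Finset.mem_of_mem_erase hb, Finset.ne_of_mem_erase hb, ?_⟩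
  intro k hk hka hkb
  have hk' : k ∈ s.erase a := Finset.mem_erase.2 ⟨hka, hk⟩
  have h1 := hmin k hk'
  have hφb := hφ b hb
  have hφk := hφ k hk'
  rw [div_le_div_iff₀ hφb hφk] at h1
  have hid : (α ^ 2 + β ^ 2) * o (y a) (y b) (y k) = φ b * ψ k - ψ b * φ k := by
    simp only [φ, ψ, o]; ring
  have hpos : 0 < α ^ 2 + β ^ 2 := by
    by_contra hcon
    have h2 : α ^ 2 + β ^ 2 ≤ 0 := not_lt.1 hcon
    have h3 : α = 0 := by nlinarith [sq_nonneg α, sq_nonneg β]
    have h4 : β = 0 := by nlinarith [sq_nonneg α, sq_nonneg β]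
    simp only [φ, h3, h4] at hφb
    simp at hφb
  have h5 : 0 ≤ o (y a) (y b) (y k) := by
    by_contra hcon
    have : (α ^ 2 + β ^ 2) * o (y a) (y b) (y k) < 0 := mul_neg_of_pos_of_neg hpos (not_le.1 hcon)
    rw [hid] at this
    linarith
  exact lt_of_le_of_ne h5 (genpos hE ha (Finset.mem_of_mem_erase hb) hk
    (Finset.ne_of_mem_erase hb).symm hka.symm hkb.symm).symm

/-- All other points are strictly on one side of the line through points `i` and `j`. -/
def OneSide (x : ι → ℝ × ℝ) (s : Finset ι) (i j : ι) : Prop :=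
  (∀ k ∈ s, k ≠ i → k ≠ j → 0 < o (x i) (x j) (x k)) ∨
    (∀ k ∈ s, k ≠ i → k ≠ j → o (x i) (x j) (x k) < 0)

theorem three_oneSide {x : ι → ℝ × ℝ} {s : Finset ι} {p u v w : ι} (hu : u ∈ s) (hv : v ∈ s)
    (hw : w ∈ s) (hup : u ≠ p) (hvp : v ≠ p) (hwp : w ≠ p) (huv : u ≠ v) (huw : u ≠ w) (hvw : v ≠ w)
    (h1 : OneSide x s u p) (h2 : OneSide x s v p) (h3 : OneSide x s w p) : False := by
  have e1 : o (x v) (x p) (x u) = - o (x u) (x p) (x v) := o_swap13 _ _ _
  have e2 : o (x w) (x p) (x u) = - o (x u) (x p) (x w) := o_swap13 _ _ _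
  have e3 : o (x w) (x p) (x v) = - o (x v) (x p) (x w) := o_swap13 _ _ _
  rcases h1 with h1 | h1 <;> rcases h2 with h2 | h2 <;> rcases h3 with h3 | h3 <;>
  · have a1 := h1 v hv huv.symm hvp
    have a2 := h1 w hw huw.symm hwp
    have a3 := h2 u hu huv hup
    have a4 := h2 w hw hvw.symm hwp
    have a5 := h3 u hu huw hup
    have a6 := h3 v hv hvw hvp
    linarith


theorem vol_hull_two (y : ι → ℝ × ℝ) (a b : ι) (s : Finset ι) (h : ∀ k ∈ s, k = a ∨ k = b) :
    volume (convexHull ℝ (y '' (s : Set ι))) = 0 := by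
  have h1 : convexHull ℝ (y '' (s : Set ι)) ⊆ convexHull ℝ {y a, y a, y b} := by
    refine convexHull_mono ?_
    rintro _ ⟨k, hk, rfl⟩
    rcases h k hk with rfl | rfl <;> simp
  refine measure_mono_null h1 ?_
  rw [vol_tri, o_self12]; simp

open Classical in
theorem tri_le (x y : ι → ℝ × ℝ)
    (hT : ∀ i j k, |o (y i) (y j) (y k)| ≤ |o (x i) (x j) (x k)|) (i j k : ι) :
    volume (convexHull ℝ (y '' (({i, j, k} : Finset ι) : Set ι))) ≤
      volume (convexHull ℝ (x '' (({i, j, k} : Finset ι) : Set ι))) := by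
  have h : ∀ z : ι → ℝ × ℝ, z '' (({i, j, k} : Finset ι) : Set ι) = {z i, z j, z k} := by
    intro z
    simp [Set.image_insert_eq]
  rw [h, h, vol_tri, vol_tri]
  exact mul_le_mul' (ENNReal.ofReal_le_ofReal (hT i j k)) le_rfl

open Classical in
theorem main (x y : ι → ℝ × ℝ)
    (hT : ∀ i j k, |o (y i) (y j) (y k)| ≤ |o (x i) (x j) (x k)|) (s : Finset ι) :
    volume (convexHull ℝ (y '' (s : Set ι))) ≤ volume (convexHull ℝ (x '' (s : Set ι))) := by
  induction s using Finset.strongInduction with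
  | H s IH =>
  by_cases hE : Ext y s
  swap
  · -- some point is not extreme
    simp only [Ext, not_forall, not_not] at hE
    obtain ⟨a, ha, hmem⟩ := hE
    have h1 : convexHull ℝ (y '' (s : Set ι)) ⊆
        convexHull ℝ (y '' ((s.erase a : Finset ι) : Set ι)) := by
      refine convexHull_min ?_ (convex_convexHull ℝ _)
      rintro _ ⟨k, hk, rfl⟩
      by_cases hka : k = a
      · rw [hka]; exact hmem
      · exact subset_convexHull ℝ _ ⟨k, by simp [hka, Finset.mem_coe.1 hk], rfl⟩
    refine (measure_mono h1).trans ((IH _ (Finset.erase_ssubset ha)).trans (measure_mono ?_))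
    exact convexHull_mono (Set.image_mono (Finset.coe_subset.2 (Finset.erase_subset a s)))
  by_cases hcard : s.card ≤ 2
  · -- trivial small cases
    have : volume (convexHull ℝ (y '' (s : Set ι))) = 0 := by
      rcases Nat.lt_or_ge s.card 1 with h | h
      · have : s = ∅ := Finset.card_eq_zero.1 (by omega)
        subst this; simp
      · rcases Nat.lt_or_ge s.card 2 with h' | h'
        · obtain ⟨a, rfl⟩ := Finset.card_eq_one.1 (show s.card = 1 by omega)
          exact vol_hull_two y a a _ (by simp)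
        · obtain ⟨a, b, -, rfl⟩ := Finset.card_eq_two.1 (show s.card = 2 by omega)
          exact vol_hull_two y a b _ (by simp)
    rw [this]; exact zero_le
  have hcard3 : 3 ≤ s.card := by omega
  -- general position of both families
  have gy : ∀ a ∈ s, ∀ b ∈ s, ∀ c ∈ s, a ≠ b → a ≠ c → b ≠ c → o (y a) (y b) (y c) ≠ 0 :=
    fun a ha b hb c hc h1 h2 h3 => genpos hE ha hb hc h1 h2 h3
  have gx : ∀ a ∈ s, ∀ b ∈ s, ∀ c ∈ s, a ≠ b → a ≠ c → b ≠ c → o (x a) (x b) (x c) ≠ 0 := by
    intro a ha b hb c hc h1 h2 h3 h0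
    have := hT a b c
    rw [h0, abs_zero] at this
    exact gy a ha b hb c hc h1 h2 h3 (abs_nonpos_iff.1 this)
  have third : ∀ a b : ι, ∃ c ∈ s, c ≠ a ∧ c ≠ b := by
    intro a b
    by_contra hcon
    push Not at hcon
    have : s ⊆ {a, b} := by
      intro c hc
      rw [Finset.mem_insert, Finset.mem_singleton]
      by_cases h : c = a
      · exact Or.inl h
      · exact Or.inr (hcon c hc h)
    have h1 := Finset.card_le_card this
    have h2 := Finset.card_le_two (a := a) (b := b)
    omega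
  have xne : ∀ a ∈ s, ∀ b ∈ s, a ≠ b → x a ≠ x b := by
    intro a ha b hb hab e
    obtain ⟨c, hc, hca, hcb⟩ := third a b
    apply gx a ha b hb c hc hab hca.symm hcb.symm
    rw [e, o_self12]
  -- the splitting step
  have stepSplit : ∀ i ∈ s, ∀ j ∈ s, i ≠ j → ¬ OneSide x s i j →
      (∀ t t' : Finset ι, t ⊆ s → t' ⊆ s → i ∈ t → j ∈ t → i ∈ t' → j ∈ t' →
        (∀ k ∈ s, k ∈ t ∨ k ∈ t') →
        volume (convexHull ℝ (y '' (s : Set ι))) ≤
          volume (convexHull ℝ (y '' (t : Set ι))) + volume (convexHull ℝ (y '' (t' : Set ι)))) →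
      volume (convexHull ℝ (y '' (s : Set ι))) ≤ volume (convexHull ℝ (x '' (s : Set ι))) := by
    intro i hi j hj hij hos hsub
    simp only [OneSide, not_or, not_forall, not_lt, exists_prop] at hos
    obtain ⟨⟨k, hk, hki, hkj, hk0⟩, ⟨l, hl, hli, hlj, hl0⟩⟩ := hos
    have hk1 : o (x i) (x j) (x k) < 0 := lt_of_le_of_ne hk0 (gx i hi j hj k hk hij hki.symm hkj.symm)
    have hl1 : 0 < o (x i) (x j) (x l) :=
      lt_of_le_of_ne hl0 (gx i hi j hj l hl hij hli.symm hlj.symm).symm
    let t := s.filter (fun k => 0 ≤ o (x i) (x j) (x k))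
    let t' := s.filter (fun k => o (x i) (x j) (x k) ≤ 0)
    have ht : t ⊆ s := Finset.filter_subset _ _
    have ht' : t' ⊆ s := Finset.filter_subset _ _
    have hts : t ⊂ s := by
      refine Finset.ssubset_iff_subset_ne.2 ⟨ht, fun e => ?_⟩
      have : k ∈ t := e ▸ hk
      exact absurd (Finset.mem_filter.1 this).2 (not_le.2 hk1)
    have hts' : t' ⊂ s := by
      refine Finset.ssubset_iff_subset_ne.2 ⟨ht', fun e => ?_⟩
      have : l ∈ t' := e ▸ hl
      exact absurd (Finset.mem_filter.1 this).2 (not_le.2 hl1)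
    have h1 := hsub t t' ht ht'
      (Finset.mem_filter.2 ⟨hi, by rw [o_self13]⟩) (Finset.mem_filter.2 ⟨hj, by rw [o_self23]⟩)
      (Finset.mem_filter.2 ⟨hi, by rw [o_self13]⟩) (Finset.mem_filter.2 ⟨hj, by rw [o_self23]⟩)
      (by
        intro m hm
        rcases le_total 0 (o (x i) (x j) (x m)) with h | h
        · exact Or.inl (Finset.mem_filter.2 ⟨hm, h⟩)
        · exact Or.inr (Finset.mem_filter.2 ⟨hm, h⟩))
    have h2 := split x s t t' (x i) (x j) (xne i hi j hj hij) ht ht'
      (fun m hm => (Finset.mem_filter.1 hm).2) (fun m hm => (Finset.mem_filter.1 hm).2)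
    exact h1.trans ((add_le_add (IH t hts) (IH t' hts')).trans h2)
  -- edges and farthest points
  have hnx : ∀ a : s, ∃ b : s, b ≠ a ∧ ∀ k : s, k ≠ a → k ≠ b → 0 < o (y a) (y b) (y k) := by
    rintro ⟨a, ha⟩
    have hne : (s.erase a).Nonempty := by
      obtain ⟨c, hc, hca, -⟩ := third a a
      exact ⟨c, Finset.mem_erase.2 ⟨hca, hc⟩⟩
    obtain ⟨b, hb, hba, h⟩ := exists_next hE ha hne
    refine ⟨⟨b, hb⟩, fun e => hba (congrArg Subtype.val e), ?_⟩
    rintro ⟨k, hk⟩ h1 h2
    exact h k hk (fun e => h1 (Subtype.ext e)) (fun e => h2 (Subtype.ext e))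
  choose nx hnx1 hnx2 using hnx
  have hfr : ∀ a : s, ∃ p : s, ∀ k : s, o (y a) (y (nx a)) (y k) ≤ o (y a) (y (nx a)) (y p) := by
    intro a
    have : Nonempty s := ⟨a⟩
    obtain ⟨p, hp⟩ := Finite.exists_max (fun k : s => o (y a) (y (nx a)) (y k))
    exact ⟨p, hp⟩
  choose fr hfr using hfr
  have hfrpos : ∀ a : s, 0 < o (y a) (y (nx a)) (y (fr a)) := by
    intro a
    obtain ⟨c, hc, hca, hcb⟩ := third a (nx a)
    exact lt_of_lt_of_le (hnx2 a ⟨c, hc⟩ (fun e => hca (congrArg Subtype.val e))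
      (fun e => hcb (congrArg Subtype.val e))) (hfr a ⟨c, hc⟩)
  have hfra : ∀ a : s, fr a ≠ a := by
    intro a e
    have := hfrpos a
    rw [e, o_self13] at this
    exact lt_irrefl _ this
  have hfrn : ∀ a : s, fr a ≠ nx a := by
    intro a e
    have := hfrpos a
    rw [e, o_self23] at this
    exact lt_irrefl _ this
  have hge : ∀ a k : s, 0 ≤ o (y a) (y (nx a)) (y k) := by
    intro a k
    by_cases h1 : k = a
    · rw [h1, o_self13]
    · by_cases h2 : k = nx a
      · rw [h2, o_self23]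
      · exact (hnx2 a k h1 h2).le
  -- subadditivity for the antipodal pairs coming from an edge
  have hsubE : ∀ a : s, ∀ i : s, (i = a ∨ i = nx a) → ∀ t t' : Finset ι, t ⊆ s → t' ⊆ s →
      (i : ι) ∈ t → (fr a : ι) ∈ t → (i : ι) ∈ t' → (fr a : ι) ∈ t' →
        (∀ k ∈ s, k ∈ t ∨ k ∈ t') →
        volume (convexHull ℝ (y '' (s : Set ι))) ≤
          volume (convexHull ℝ (y '' (t : Set ι))) + volume (convexHull ℝ (y '' (t' : Set ι))) := by
    intro a i hi t t' ht ht' h1 h2 h3 h4 h5
    have hoi : o (y a) (y (nx a)) (y i) = 0 := by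
      rcases hi with rfl | rfl
      · rw [o_self13]
      · rw [o_self23]
    have hlin : ∀ z : ℝ × ℝ, (-((y (nx a)).2 - (y a).2)) * z.1 + ((y (nx a)).1 - (y a).1) * z.2 =
        o (y a) (y (nx a)) z + ((-((y (nx a)).2 - (y a).2)) * (y a).1 +
          ((y (nx a)).1 - (y a).1) * (y a).2) := by
      intro z; simp only [o]; ring
    refine subadd y s t t' i (fr a) (-((y (nx a)).2 - (y a).2)) ((y (nx a)).1 - (y a).1)
      h1 h2 h3 h4 ht ht' h5 ?_ ?_ ?_
    · rw [hlin (y i), hlin (y (fr a)), hoi]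
      linarith [hfrpos a]
    · intro k hk
      rw [hlin (y i), hlin (y k), hoi]
      linarith [hge a ⟨k, hk⟩]
    · intro k hk
      rw [hlin (y k), hlin (y (fr a))]
      linarith [hfr a ⟨k, hk⟩]
  by_cases H : ∀ a : s, OneSide x s a (fr a) ∧ OneSide x s (nx a) (fr a)
  swap
  · simp only [not_forall, not_and_or] at H
    obtain ⟨a, H | H⟩ := H
    · exact stepSplit a a.2 (fr a) (fr a).2 (fun e => hfra a (Subtype.ext e.symm)) H
        (hsubE a a (Or.inl rfl))
    · exact stepSplit (nx a) (nx a).2 (fr a) (fr a).2 (fun e => hfrn a (Subtype.ext e.symm)) H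
        (hsubE a (nx a) (Or.inr rfl))
  -- now no antipodal pair splits `x`; the map `fr` is injective
  have hinj : Function.Injective fr := by
    intro a a' he
    by_contra hne
    have e1 : ((nx a : s) : ι) ≠ a := fun e => hnx1 a (Subtype.ext e)
    have e2 : ((nx a' : s) : ι) ≠ a' := fun e => hnx1 a' (Subtype.ext e)
    have e3 : (a : ι) ≠ fr a := fun e => hfra a (Subtype.ext e.symm)
    have e4 : ((nx a : s) : ι) ≠ fr a := fun e => hfrn a (Subtype.ext e.symm)
    have e5 : (a' : ι) ≠ fr a := by rw [he]; exact fun e => hfra a' (Subtype.ext e.symm)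
    have e6 : ((nx a' : s) : ι) ≠ fr a := by rw [he]; exact fun e => hfrn a' (Subtype.ext e.symm)
    have e7 : (a : ι) ≠ a' := fun e => hne (Subtype.ext e)
    have H1 := (H a).1
    have H2 := (H a).2
    have H3 : OneSide x s a' (fr a) := by rw [he]; exact (H a').1
    have H4 : OneSide x s (nx a') (fr a) := by rw [he]; exact (H a').2
    by_cases hb : nx a = a'
    · have hb' : nx a' ≠ a := by
        intro hb'
        obtain ⟨c, hc, hca, hca'⟩ := third a a'
        have h1 := hnx2 a ⟨c, hc⟩ (fun e => hca (congrArg Subtype.val e))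
          (fun e => hca' (by rw [← hb]; exact congrArg Subtype.val e))
        have h2 := hnx2 a' ⟨c, hc⟩ (fun e => hca' (congrArg Subtype.val e))
          (fun e => hca (by rw [← hb']; exact congrArg Subtype.val e))
        rw [hb] at h1
        rw [hb', o_swap12] at h2
        linarith
      have e8 : (a : ι) ≠ nx a' := fun e => hb' (Subtype.ext e.symm)
      exact three_oneSide a.2 a'.2 (nx a').2 e3 e5 e6 e7 e8 e2.symm H1 H3 H4
    · have e8 : ((nx a : s) : ι) ≠ a' := fun e => hb (Subtype.ext e)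
      exact three_oneSide a.2 (nx a).2 a'.2 e3 e4 e5 e1.symm e7 e8 H1 H2 H3
  have hsurj : Function.Surjective fr := Finite.surjective_of_injective hinj
  have hsne : s.Nonempty := Finset.card_pos.1 (by omega)
  obtain ⟨p, hp, hmax⟩ := Finset.exists_max_image s
    (fun p => volume (convexHull ℝ (y '' ((s.erase p : Finset ι) : Set ι)))) hsne
  obtain ⟨a, ha⟩ := hsurj ⟨p, hp⟩
  have hap : (a : ι) ≠ p := by
    intro e
    exact hfra a (ha.trans (Subtype.ext e.symm))
  have hnp : ((nx a : s) : ι) ≠ p := by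
    intro e
    exact hfrn a (ha.trans (Subtype.ext e.symm))
  have hna : ((nx a : s) : ι) ≠ a := fun e => hnx1 a (Subtype.ext e)
  have hfa : ((fr a : s) : ι) = p := congrArg Subtype.val ha
  -- upper bound for the `y` hull
  have up1 : volume (convexHull ℝ (y '' (s : Set ι))) ≤
      volume (convexHull ℝ (y '' (({(a : ι), ((nx a : s) : ι), p} : Finset ι) : Set ι))) +
        volume (convexHull ℝ (y '' ((s.erase (a : ι) : Finset ι) : Set ι))) := by
    refine hsubE a (nx a) (Or.inr rfl) _ _ ?_ (Finset.erase_subset _ _) (by simp) (by simp [hfa])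
      (Finset.mem_erase.2 ⟨hna, (nx a).2⟩) (Finset.mem_erase.2 ⟨by rw [hfa]; exact hap.symm, (fr a).2⟩)
      ?_
    · intro k hk
      simp only [Finset.mem_insert, Finset.mem_singleton] at hk
      rcases hk with rfl | rfl | rfl
      · exact a.2
      · exact (nx a).2
      · exact hp
    · intro k hk
      by_cases hka : k = a
      · left; simp [hka]
      · right; exact Finset.mem_erase.2 ⟨hka, hk⟩
  have up2 : volume (convexHull ℝ (y '' ((s.erase (a : ι) : Finset ι) : Set ι))) ≤
      volume (convexHull ℝ (y '' ((s.erase p : Finset ι) : Set ι))) := hmax a a.2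
  have up3 : volume (convexHull ℝ (y '' ((s.erase p : Finset ι) : Set ι))) ≤
      volume (convexHull ℝ (x '' ((s.erase p : Finset ι) : Set ι))) :=
    IH _ (Finset.erase_ssubset hp)
  have up4 := tri_le x y hT a (nx a) p
  refine up1.trans ((add_le_add up4 (up2.trans up3)).trans ?_)
  -- the chord `a, nx a` cuts off exactly `p` in `x`
  have H1 : OneSide x s a p := by rw [← hfa]; exact (H a).1
  have H2 : OneSide x s (nx a) p := by rw [← hfa]; exact (H a).2
  have hsep : ∀ k ∈ s, k ≠ p → 0 ≤ -(o (x a) (x (nx a)) (x p) * o (x a) (x (nx a)) (x k)) := by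
    intro k hk hkp
    by_cases hka : k = a
    · rw [hka, o_self13]; simp
    by_cases hkb : k = nx a
    · rw [hkb, o_self23]; simp
    by_contra hcon
    push Not at hcon
    have hprod : 0 < o (x a) (x (nx a)) (x p) * o (x a) (x (nx a)) (x k) := by linarith
    -- `k` is in the interior of the triangle `p, a, nx a`
    obtain ⟨a', ha'⟩ := hsurj ⟨k, hk⟩
    have hfa' : ((fr a' : s) : ι) = k := congrArg Subtype.val ha'
    have ha'k : (a' : ι) ≠ k := by
      intro e
      exact hfra a' (ha'.trans (Subtype.ext e.symm))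
    have H3 : OneSide x s a' k := by rw [← hfa']; exact (H a').1
    -- barycentric identity
    have bary : o (x a) (x (nx a)) (x p) * o (x a') (x k) (x k) =
        o (x a) (x (nx a)) (x k) * o (x a') (x k) (x p) +
        o (x (nx a)) (x p) (x k) * o (x a') (x k) (x a) +
        o (x p) (x a) (x k) * o (x a') (x k) (x (nx a)) := by
      simp only [o]; ring
    rw [o_self23, mul_zero] at bary
    have r1 : o (x (nx a)) (x p) (x a) = o (x a) (x (nx a)) (x p) := (o_rot _ _ _)
    have r2 : o (x p) (x a) (x (nx a)) = o (x a) (x (nx a)) (x p) := by rw [o_rot, o_rot]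
    have r3 : o (x a) (x p) (x (nx a)) = - o (x a) (x (nx a)) (x p) := o_swap23 _ _ _
    have r4 : o (x p) (x a) (x k) = - o (x a) (x p) (x k) := o_swap12 _ _ _
    have hcoef : (0 < o (x a) (x (nx a)) (x k) ∧ 0 < o (x (nx a)) (x p) (x k) ∧
          0 < o (x p) (x a) (x k)) ∨
        (o (x a) (x (nx a)) (x k) < 0 ∧ o (x (nx a)) (x p) (x k) < 0 ∧
          o (x p) (x a) (x k) < 0) := by
      rcases mul_pos_iff.1 hprod with ⟨s1, s2⟩ | ⟨s1, s2⟩
      · left
        refine ⟨s2, ?_, ?_⟩
        · rcases H2 with H2 | H2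
          · exact H2 k hk hkb hkp
          · have := H2 a a.2 hna.symm hap
            rw [r1] at this; linarith
        · rcases H1 with H1 | H1
          · have := H1 (nx a) (nx a).2 hna hnp
            rw [r3] at this; linarith
          · have := H1 k hk hka hkp
            linarith
      · right
        refine ⟨s2, ?_, ?_⟩
        · rcases H2 with H2 | H2
          · have := H2 a a.2 hna.symm hap
            rw [r1] at this; linarith
          · exact H2 k hk hkb hkp
        · rcases H1 with H1 | H1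
          · have := H1 k hk hka hkp
            linarith
          · have := H1 (nx a) (nx a).2 hna hnp
            rw [r3] at this; linarith
    have hf : (0 ≤ o (x a') (x k) (x p) ∧ 0 ≤ o (x a') (x k) (x a) ∧
          0 ≤ o (x a') (x k) (x (nx a)) ∧
          (0 < o (x a') (x k) (x p) ∨ 0 < o (x a') (x k) (x a))) ∨
        (o (x a') (x k) (x p) ≤ 0 ∧ o (x a') (x k) (x a) ≤ 0 ∧
          o (x a') (x k) (x (nx a)) ≤ 0 ∧
          (o (x a') (x k) (x p) < 0 ∨ o (x a') (x k) (x a) < 0)) := by
      rcases H3 with H3 | H3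
      · left
        have h0 : ∀ l ∈ s, l ≠ k → 0 ≤ o (x a') (x k) (x l) := by
          intro l hl hlk
          by_cases hla : l = a'
          · rw [hla, o_self13]
          · exact (H3 l hl hla hlk).le
        refine ⟨h0 p hp (Ne.symm hkp), h0 a a.2 (Ne.symm hka), h0 _ (nx a).2 (Ne.symm hkb), ?_⟩
        by_cases hpa' : p = a'
        · right
          exact H3 a a.2 (by rw [← hpa']; exact hap) (Ne.symm hka)
        · left
          exact H3 p hp hpa' (Ne.symm hkp)
      · right
        have h0 : ∀ l ∈ s, l ≠ k → o (x a') (x k) (x l) ≤ 0 := by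
          intro l hl hlk
          by_cases hla : l = a'
          · rw [hla, o_self13]
          · exact (H3 l hl hla hlk).le
        refine ⟨h0 p hp (Ne.symm hkp), h0 a a.2 (Ne.symm hka), h0 _ (nx a).2 (Ne.symm hkb), ?_⟩
        by_cases hpa' : p = a'
        · right
          exact H3 a a.2 (by rw [← hpa']; exact hap) (Ne.symm hka)
        · left
          exact H3 p hp hpa' (Ne.symm hkp)
    rcases hcoef with ⟨c1, c2, c3⟩ | ⟨c1, c2, c3⟩ <;> rcases hf with ⟨f1, f2, f3, f4⟩ | ⟨f1, f2, f3, f4⟩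
    · have q1 := mul_nonneg c1.le f1
      have q2 := mul_nonneg c2.le f2
      have q3 := mul_nonneg c3.le f3
      rcases f4 with f4 | f4
      · have := mul_pos c1 f4; linarith
      · have := mul_pos c2 f4; linarith
    · have q1 := mul_nonpos_of_nonneg_of_nonpos c1.le f1
      have q2 := mul_nonpos_of_nonneg_of_nonpos c2.le f2
      have q3 := mul_nonpos_of_nonneg_of_nonpos c3.le f3
      rcases f4 with f4 | f4
      · have := mul_neg_of_pos_of_neg c1 f4; linarith
      · have := mul_neg_of_pos_of_neg c2 f4; linarith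
    · have q1 := mul_nonpos_of_nonpos_of_nonneg c1.le f1
      have q2 := mul_nonpos_of_nonpos_of_nonneg c2.le f2
      have q3 := mul_nonpos_of_nonpos_of_nonneg c3.le f3
      rcases f4 with f4 | f4
      · have := mul_neg_of_neg_of_pos c1 f4; linarith
      · have := mul_neg_of_neg_of_pos c2 f4; linarith
    · have q1 := mul_nonneg_of_nonpos_of_nonpos c1.le f1
      have q2 := mul_nonneg_of_nonpos_of_nonpos c2.le f2
      have q3 := mul_nonneg_of_nonpos_of_nonpos c3.le f3
      rcases f4 with f4 | f4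
      · have := mul_pos_of_neg_of_neg c1 f4; linarith
      · have := mul_pos_of_neg_of_neg c2 f4; linarith
  have hsub3 : ({(a : ι), ((nx a : s) : ι), p} : Finset ι) ⊆ s := by
    intro k hk
    simp only [Finset.mem_insert, Finset.mem_singleton] at hk
    rcases hk with rfl | rfl | rfl
    · exact a.2
    · exact (nx a).2
    · exact hp
  have hxne : x a ≠ x (nx a) := xne a a.2 (nx a) (nx a).2 hna.symm
  have hO : o (x a) (x (nx a)) (x p) ≠ 0 := gx a a.2 (nx a) (nx a).2 p hp hna.symm hap hnp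
  rcases lt_or_gt_of_ne hO with hO | hO
  · rw [add_comm]
    refine split x s _ _ (x a) (x (nx a)) hxne (Finset.erase_subset _ _) hsub3 ?_ ?_
    · intro k hk
      have h1 := hsep k (Finset.mem_of_mem_erase hk) (Finset.ne_of_mem_erase hk)
      by_contra hcon
      push Not at hcon
      have := mul_pos_of_neg_of_neg hO hcon
      linarith
    · intro k hk
      simp only [Finset.mem_insert, Finset.mem_singleton] at hk
      rcases hk with rfl | rfl | rfl
      · rw [o_self13]
      · rw [o_self23]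
      · exact hO.le
  · refine split x s _ _ (x a) (x (nx a)) hxne hsub3 (Finset.erase_subset _ _) ?_ ?_
    · intro k hk
      simp only [Finset.mem_insert, Finset.mem_singleton] at hk
      rcases hk with rfl | rfl | rfl
      · rw [o_self13]
      · rw [o_self23]
      · exact hO.le
    · intro k hk
      have h1 := hsep k (Finset.mem_of_mem_erase hk) (Finset.ne_of_mem_erase hk)
      by_contra hcon
      push Not at hcon
      have := mul_pos hO hcon
      linarith


/-! ### Transfer to the Euclidean plane -/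

/-- Coordinates. -/
noncomputable def co : EuclideanSpace ℝ (Fin 2) →ₗ[ℝ] ℝ × ℝ where
  toFun v := (v 0, v 1)
  map_add' v w := by simp
  map_smul' c v := by simp

theorem vol_co (S : Set (EuclideanSpace ℝ (Fin 2))) :
    volume (convexHull ℝ S) = volume (convexHull ℝ (co '' S)) := by
  let E : EuclideanSpace ℝ (Fin 2) ≃ᵐ ℝ × ℝ :=
    (MeasurableEquiv.toLp 2 (Fin 2 → ℝ)).symm.trans MeasurableEquiv.finTwoArrow
  have hE : MeasurePreserving E volume volume :=
    (EuclideanSpace.volume_preserving_symm_measurableEquiv_toLp (Fin 2)).trans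
      (volume_preserving_finTwoArrow ℝ)
  have hEc : ∀ v, E v = co v := fun v => rfl
  have h1 : convexHull ℝ (co '' S) = E '' (convexHull ℝ S) := by
    rw [← LinearMap.image_convexHull]
    rfl
  rw [h1, MeasurableEquiv.image_eq_preimage_symm, (hE.symm).measure_preimage_equiv]

theorem abs_o_le_of_vol_le {p q r p' q' r' : EuclideanSpace ℝ (Fin 2)}
    (h : volume (convexHull ℝ {p, q, r}) ≤ volume (convexHull ℝ {p', q', r'})) :
    |o (co p) (co q) (co r)| ≤ |o (co p') (co q') (co r')| := by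
  rw [vol_co, vol_co, Set.image_insert_eq, Set.image_insert_eq, Set.image_singleton,
    Set.image_insert_eq, Set.image_insert_eq, Set.image_singleton, vol_tri, vol_tri,
    ENNReal.mul_le_mul_iff_left tri0_pos.ne' tri0_lt_top.ne,
    ENNReal.ofReal_le_ofReal_iff (abs_nonneg _)] at h
  exact h

/-- **Triangle-area domination implies domination of the area of the convex hull.**
For two lists of `n` points of the Euclidean plane, if every triangle spanned by the `x i` has
area at least that of the corresponding triangle spanned by the `y i`, then the area of the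
convex hull of the `x i` is at least the area of the convex hull of the `y i`. -/
theorem result (n : ℕ) (x y : Fin n → EuclideanSpace ℝ (Fin 2))
    (hT : ∀ i j k : Fin n, i ≤ j → j ≤ k →
      volume (convexHull ℝ {y i, y j, y k}) ≤ volume (convexHull ℝ {x i, x j, x k})) :
    volume (convexHull ℝ (Set.range y)) ≤ volume (convexHull ℝ (Set.range x)) := by
  have h0 : ∀ i j k : Fin n, i ≤ j → j ≤ k →
      |o (co (y i)) (co (y j)) (co (y k))| ≤ |o (co (x i)) (co (x j)) (co (x k))| :=
    fun i j k h1 h2 => abs_o_le_of_vol_le (hT i j k h1 h2)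
  have a12 : ∀ p q r : ℝ × ℝ, |o q p r| = |o p q r| := fun p q r => by rw [o_swap12, abs_neg]
  have a23 : ∀ p q r : ℝ × ℝ, |o p r q| = |o p q r| := fun p q r => by rw [o_swap23, abs_neg]
  have h1 : ∀ i j k : Fin n,
      |o (co (y i)) (co (y j)) (co (y k))| ≤ |o (co (x i)) (co (x j)) (co (x k))| := by
    have h2 : ∀ i j k : Fin n, i ≤ j →
        |o (co (y i)) (co (y j)) (co (y k))| ≤ |o (co (x i)) (co (x j)) (co (x k))| := by
      intro i j k hij
      rcases le_total j k with h | h
      · exact h0 i j k hij h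
      · rw [← a23 (co (y i)), ← a23 (co (x i))]
        rcases le_total i k with h' | h'
        · exact h0 i k j h' h
        · rw [← a12 (co (y i)), ← a12 (co (x i))]
          exact h0 k i j h' hij
    intro i j k
    rcases le_total i j with h | h
    · exact h2 i j k h
    · rw [← a12 (co (y i)), ← a12 (co (x i))]
      exact h2 j i k h
  have key := main (fun i => co (x i)) (fun i => co (y i)) h1 Finset.univ
  rw [Finset.coe_univ, Set.image_univ, Set.image_univ] at key
  rw [vol_co, vol_co, ← Set.range_comp, ← Set.range_comp]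
  exact key

end Pool.Agent.Results.MP_9d21cc_co.TriangleDomination
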